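import Mathlib
import Pool.Agent.Helper98.Lang.Defs

set_option autoImplicit false

/-!
# P2 FEJ: Fejér majorants and their means over multiples (`MP_c307ca_nt`)
-/

open Finset

namespace Pool.Agent.Helper8.Lang

open Pool.Agent.Helper98.Lang

/-! ### the additive character -/

/-- `e(t) = exp (2 π i t)` -/
noncomputable def ec (t : ℝ) : ℂ := Complex.exp (Complex.I * ((2 * Real.pi * t : ℝ) : ℂ))

lemma norm_ec (t : ℝ) : ‖ec t‖ = 1 := by
  unfold ec; rw [mul_comm]; exact Complex.norm_exp_ofReal_mul_I _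

lemma ec_add (s t : ℝ) : ec (s + t) = ec s * ec t := by
  unfold ec; rw [← Complex.exp_add]; congr 1; push_cast; ring

lemma ec_zero : ec 0 = 1 := by simp [ec]

lemma ec_int (k : ℤ) : ec k = 1 := by
  unfold ec
  rw [Complex.exp_eq_one_iff]
  exact ⟨k, by push_cast; ring⟩

lemma ec_nat_mul (j : ℕ) (t : ℝ) : ec (j * t) = ec t ^ j := by
  unfold ec; rw [← Complex.exp_nat_mul]; congr 1; push_cast; ring

lemma ec_neg (t : ℝ) : ec (-t) = (starRingEnd ℂ) (ec t) := by
  have h1 : ec t * ec (-t) = 1 := by rw [← ec_add]; simp [ec_zero]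
  have h2 : ec t * (starRingEnd ℂ) (ec t) = 1 := by
    rw [Complex.mul_conj', norm_ec]; simp
  have h3 : ec t ≠ 0 := by
    intro h; rw [h] at h1; simp at h1
  exact mul_left_cancel₀ h3 (h1.trans h2.symm)

lemma norm_ec_sub_one (t : ℝ) : ‖ec t - 1‖ = 2 * |Real.sin (Real.pi * t)| := by
  unfold ec
  rw [Complex.norm_exp_I_mul_ofReal_sub_one]
  rw [show 2 * Real.pi * t / 2 = Real.pi * t by ring, Real.norm_eq_abs, abs_mul]
  simp

/-! ### the distance to the nearest integer -/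

lemma nd_nonneg (x : ℝ) : 0 ≤ nd x := abs_nonneg _

lemma nd_le_int (x : ℝ) (k : ℤ) : nd x ≤ |x - k| := round_le x k

lemma nd_le_half (x : ℝ) : nd x ≤ 1 / 2 := abs_sub_round x

lemma nd_neg_le (x : ℝ) : nd (-x) ≤ nd x := by
  have h := nd_le_int (-x) (-(round x))
  have h2 : |(-x) - ((-(round x) : ℤ) : ℝ)| = nd x := by
    unfold nd
    rw [show (-x) - ((-(round x) : ℤ) : ℝ) = -(x - round x) by push_cast; ring, abs_neg]
  rwa [h2] at h

lemma nd_neg (x : ℝ) : nd (-x) = nd x :=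
  le_antisymm (nd_neg_le x) (by simpa using nd_neg_le (-x))

lemma abs_sin_int (t : ℝ) (k : ℤ) :
    |Real.sin (Real.pi * t)| = |Real.sin (Real.pi * (t - k))| := by
  rw [show Real.pi * (t - k) = Real.pi * t - k * Real.pi by ring, Real.sin_sub_int_mul_pi, abs_mul]
  simp

lemma two_nd_le_sin (t : ℝ) : 2 * nd t ≤ |Real.sin (Real.pi * t)| := by
  rw [abs_sin_int t (round t)]
  have h1 : |Real.pi * (t - round t)| = Real.pi * nd t := by
    rw [abs_mul, abs_of_pos Real.pi_pos]; rfl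
  have h2 : |Real.pi * (t - round t)| ≤ Real.pi / 2 := by
    rw [h1]; have := nd_le_half t; have := Real.pi_pos; nlinarith
  have h3 := Real.mul_abs_le_abs_sin h2
  rw [h1] at h3
  have hpi := Real.pi_pos
  have h4 : 2 / Real.pi * (Real.pi * nd t) = 2 * nd t := by field_simp
  linarith

/-- geometric sums -/
lemma geom_bound (M : ℕ) (φ : ℝ) (hφ : 0 < nd φ) :
    ‖∑ n ∈ Icc 1 M, ec (n * φ)‖ ≤ 1 / 2 * (1 / nd φ) := by
  have h1 : ∑ n ∈ Icc 1 M, ec (n * φ) = ec φ * ∑ n ∈ range M, ec φ ^ n := by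
    rw [Finset.mul_sum]
    rw [show Icc 1 M = Ico 1 (M + 1) by ext; simp,
      Finset.sum_Ico_eq_sum_range]
    refine Finset.sum_congr (by simp) fun n _ => ?_
    rw [ec_nat_mul, pow_add, pow_one]
  have h2 : ‖∑ n ∈ Icc 1 M, ec (n * φ)‖ * ‖ec φ - 1‖ ≤ 2 := by
    rw [h1, norm_mul, norm_ec, one_mul, ← norm_mul, geom_sum_mul]
    calc ‖ec φ ^ M - 1‖ ≤ ‖ec φ ^ M‖ + ‖(1 : ℂ)‖ := norm_sub_le _ _
      _ = 2 := by rw [norm_pow, norm_ec]; norm_num
  rw [norm_ec_sub_one] at h2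
  have h3 := two_nd_le_sin φ
  have h4 : ‖∑ n ∈ Icc 1 M, ec (n * φ)‖ * (4 * nd φ) ≤ 2 := by
    refine le_trans ?_ h2
    apply mul_le_mul_of_nonneg_left _ (norm_nonneg _)
    linarith
  have h5 : ‖∑ n ∈ Icc 1 M, ec (n * φ)‖ ≤ 2 / (4 * nd φ) := by
    rw [le_div_iff₀ (by positivity)]; exact h4
  refine h5.trans (le_of_eq ?_)
  field_simp
  norm_num

/-! ### sums of `1 / ‖h θ‖` -/

lemma sum_inv_nd (θ s : ℝ) (H : ℕ) (hs : 0 < s)
    (hh : ∀ h : ℕ, 1 ≤ h → h < H → s ≤ nd (h * θ)) (hs2 : s ≤ 1 / 2) :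
    ∑ h ∈ Ico 1 H, 1 / nd (h * θ) ≤ 2 / s * (1 + Real.log (1 / s)) := by
  classical
  set r : ℕ → ℝ := fun h => h * θ - round (h * θ) with hr
  have hnd : ∀ h : ℕ, nd (h * θ) = |r h| := fun h => rfl
  set m : ℕ → ℕ := fun h => ⌊|r h| / s⌋₊ with hm
  set J : ℕ := ⌊1 / s⌋₊ with hJ
  have hJ1 : 1 ≤ J := by
    rw [hJ, Nat.one_le_floor_iff, le_div_iff₀ hs]; linarith
  have hJ2 : (J : ℝ) ≤ 1 / s := Nat.floor_le (by positivity)
  have hm1 : ∀ h ∈ Ico 1 H, 1 ≤ m h := by
    intro h hh'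
    rw [mem_Ico] at hh'
    have := hh h hh'.1 hh'.2
    rw [hm, Nat.one_le_floor_iff, le_div_iff₀ hs, one_mul, ← hnd]
    exact this
  have hmJ : ∀ h, m h ≤ J := by
    intro h
    apply Nat.floor_le_floor
    have : |r h| ≤ 1 / 2 := by rw [← hnd]; exact nd_le_half _
    gcongr
    linarith
  have hms : ∀ h : ℕ, (m h : ℝ) * s ≤ nd (h * θ) := by
    intro h
    have := Nat.floor_le (show 0 ≤ |r h| / s by positivity)
    rw [le_div_iff₀ hs] at this
    exact this
  have hlt : ∀ h, |r h| < (m h + 1) * s := by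
    intro h
    have := Nat.lt_floor_add_one (|r h| / s)
    rwa [div_lt_iff₀ hs] at this
  -- injectivity
  have hdiff : ∀ h h' : ℕ, 1 ≤ h → h < h' → h' < H → m h = m h' →
      (decide (0 ≤ r h) = decide (0 ≤ r h')) → False := by
    intro h h' h1 h2 h3 h4 h5
    have e1 := hms h
    have e2 := hms h'
    have e3 := hlt h
    have e4 := hlt h'
    rw [hnd] at e1 e2
    rw [h4] at e1 e3
    have h6 : |r h' - r h| < s := by
      by_cases hp : 0 ≤ r h
      · have hp' : 0 ≤ r h' := by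
          have : decide (0 ≤ r h') = true := by rw [← h5]; simpa using hp
          simpa using this
        rw [abs_of_nonneg hp] at e1 e3
        rw [abs_of_nonneg hp'] at e2 e4
        rw [abs_lt]
        constructor <;> linarith
      · have hp' : ¬ 0 ≤ r h' := by
          intro hc
          have : decide (0 ≤ r h) = true := by rw [h5]; simpa using hc
          exact hp (by simpa using this)
        push Not at hp hp'
        rw [abs_of_neg hp] at e1 e3
        rw [abs_of_neg hp'] at e2 e4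
        rw [abs_lt]
        constructor <;> linarith
    have h7 := hh (h' - h) (by omega) (by omega)
    have h8 := nd_le_int (((h' - h : ℕ) : ℝ) * θ) (round (h' * θ) - round (h * θ))
    have h9 : ((h' - h : ℕ) : ℝ) * θ - ((round (h' * θ) - round (h * θ) : ℤ) : ℝ) = r h' - r h := by
      rw [Nat.cast_sub h2.le, hr]; push_cast; ring
    rw [h9] at h8
    linarith
  have hinj : Set.InjOn (fun h => (m h, decide (0 ≤ r h))) (Ico 1 H : Set ℕ) := by
    intro a ha b hb hab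
    simp only [coe_Ico, Set.mem_Ico] at ha hb
    simp only [Prod.mk.injEq] at hab
    rcases lt_trichotomy a b with h | h | h
    · exact (hdiff a b ha.1 h hb.2 hab.1 hab.2).elim
    · exact h
    · exact (hdiff b a hb.1 h ha.2 hab.1.symm hab.2.symm).elim
  calc ∑ h ∈ Ico 1 H, 1 / nd (h * θ) ≤ ∑ h ∈ Ico 1 H, 1 / ((m h : ℝ) * s) := by
        refine Finset.sum_le_sum fun h hh' => ?_
        have h1 : (1 : ℝ) ≤ m h := by exact_mod_cast hm1 h hh'
        exact one_div_le_one_div_of_le (by positivity) (hms h)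
    _ = ∑ q ∈ (Ico 1 H).image (fun h => (m h, decide (0 ≤ r h))), 1 / ((q.1 : ℝ) * s) := by
        rw [Finset.sum_image hinj]
    _ ≤ ∑ q ∈ Icc 1 J ×ˢ (univ : Finset Bool), 1 / ((q.1 : ℝ) * s) := by
        refine Finset.sum_le_sum_of_subset_of_nonneg ?_ fun _ _ _ => by positivity
        intro q hq
        rw [Finset.mem_image] at hq
        obtain ⟨h, hh', rfl⟩ := hq
        simp only [mem_product, mem_Icc, mem_univ, and_true]
        exact ⟨hm1 h hh', hmJ h⟩
    _ = 2 / s * ∑ j ∈ Icc 1 J, 1 / (j : ℝ) := by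
        rw [Finset.sum_product, Finset.mul_sum]
        refine Finset.sum_congr rfl fun j hj => ?_
        have : (j : ℝ) ≠ 0 := by
          have := (mem_Icc.1 hj).1
          positivity
        simp only [Finset.sum_const, card_univ, Fintype.card_bool, nsmul_eq_mul]
        field_simp
        norm_num
    _ ≤ 2 / s * (1 + Real.log (1 / s)) := by
        have h1 : ∑ j ∈ Icc 1 J, 1 / (j : ℝ) = (harmonic J : ℝ) := by
          rw [harmonic_eq_sum_Icc]; push_cast
          simp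
        rw [h1]
        have h2 := harmonic_le_one_add_log J
        have h3 : Real.log J ≤ Real.log (1 / s) :=
          Real.log_le_log (by exact_mod_cast hJ1) hJ2
        have : 0 ≤ 2 / s := by positivity
        apply mul_le_mul_of_nonneg_left _ this
        linarith

/-! ### the kernel -/

/-- the exponential sum -/
noncomputable def DS (H : ℕ) (t : ℝ) : ℂ := ∑ j ∈ range H, ec (j * t)

lemma DS_le (H : ℕ) (t : ℝ) : ‖DS H t‖ ≤ H := by
  unfold DS
  refine (norm_sum_le _ _).trans ?_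
  simp [norm_ec]

lemma DS_int (H : ℕ) (t : ℝ) (k : ℤ) : DS H t = DS H (t - k) := by
  unfold DS
  refine Finset.sum_congr rfl fun j _ => ?_
  have : ((j : ℝ) * t) = j * (t - k) + ((j * k : ℤ) : ℝ) := by push_cast; ring
  rw [this, ec_add, ec_int, mul_one]

lemma DS_ge (H : ℕ) (hH : 1 ≤ H) (t : ℝ) (ht : nd t ≤ 1 / (2 * H)) :
    2 * H / Real.pi ≤ ‖DS H t‖ := by
  rw [DS_int H t (round t)]
  have hpi := Real.pi_pos
  have hH0 : (0 : ℝ) < H := by exact_mod_cast hH
  set u : ℝ := t - round t with hu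
  have hu1 : |u| ≤ 1 / (2 * H) := ht
  by_cases hu0 : u = 0
  · rw [hu0]
    have : DS H 0 = H := by simp [DS, ec_zero]
    rw [this, Complex.norm_natCast, div_le_iff₀ hpi]
    have := Real.pi_gt_three
    nlinarith
  · have h1 : ‖DS H u‖ * ‖ec u - 1‖ = ‖ec (H * u) - 1‖ := by
      unfold DS
      simp_rw [ec_nat_mul]
      rw [← norm_mul, geom_sum_mul]
    rw [norm_ec_sub_one, norm_ec_sub_one] at h1
    have h2 : |Real.pi * (H * u)| ≤ Real.pi / 2 := by
      rw [abs_mul, abs_mul, abs_of_pos hpi, abs_of_pos hH0]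
      have : (H : ℝ) * |u| ≤ H * (1 / (2 * H)) := by gcongr
      have h3 : (H : ℝ) * (1 / (2 * H)) = 1 / 2 := by field_simp
      nlinarith
    have h3 := Real.mul_abs_le_abs_sin h2
    rw [abs_mul, abs_mul, abs_of_pos hpi, abs_of_pos hH0] at h3
    have h4 : |Real.sin (Real.pi * u)| ≤ Real.pi * |u| := by
      refine Real.abs_sin_le_abs.trans ?_
      rw [abs_mul, abs_of_pos hpi]
    have h5 : 2 / Real.pi * (Real.pi * (H * |u|)) = 2 * H * |u| := by field_simp
    rw [h5] at h3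
    have hu' : 0 < |u| := abs_pos.2 hu0
    have h6 : 2 * (H : ℝ) * |u| ≤ ‖DS H u‖ * (Real.pi * |u|) := by
      calc 2 * (H : ℝ) * |u| ≤ |Real.sin (Real.pi * (H * u))| := h3
        _ = ‖DS H u‖ * |Real.sin (Real.pi * u)| := by linarith
        _ ≤ ‖DS H u‖ * (Real.pi * |u|) := by gcongr
    rw [div_le_iff₀ hpi]
    have h7 : 2 * (H : ℝ) * |u| ≤ (‖DS H u‖ * Real.pi) * |u| := by linarith
    exact le_of_mul_le_mul_right h7 hu'

/-- the mean of `‖DS‖²` over multiples -/
lemma mean_DS (H : ℕ) (θ T : ℝ) (M : ℕ)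
    (hh : ∀ h : ℕ, 1 ≤ h → h < H → 0 < nd (h * θ))
    (hT : ∑ h ∈ Ico 1 H, 1 / nd (h * θ) ≤ T) :
    |∑ n ∈ Icc 1 M, ‖DS H (n * θ)‖ ^ 2 - H * M| ≤ H * T := by
  have h1 : ∀ t : ℝ, ((‖DS H t‖ ^ 2 : ℝ) : ℂ) =
      ∑ j ∈ range H, ∑ k ∈ range H, ec (((j : ℝ) - k) * t) := by
    intro t
    push_cast
    rw [← Complex.mul_conj']
    unfold DS
    rw [map_sum, Finset.sum_mul_sum]
    refine Finset.sum_congr rfl fun j _ => Finset.sum_congr rfl fun k _ => ?_
    rw [← ec_neg, ← ec_add]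
    congr 1
    ring
  have h2 : ((∑ n ∈ Icc 1 M, ‖DS H (n * θ)‖ ^ 2 - H * M : ℝ) : ℂ) =
      ∑ j ∈ range H, ∑ k ∈ (range H).erase j, ∑ n ∈ Icc 1 M, ec ((n : ℝ) * (((j : ℝ) - k) * θ)) := by
    have h3 : ((∑ n ∈ Icc 1 M, ‖DS H (n * θ)‖ ^ 2 : ℝ) : ℂ) =
        ∑ j ∈ range H, ∑ k ∈ range H, ∑ n ∈ Icc 1 M, ec ((n : ℝ) * (((j : ℝ) - k) * θ)) := by
      rw [Complex.ofReal_sum]
      simp_rw [h1]
      rw [Finset.sum_comm]
      refine Finset.sum_congr rfl fun j _ => ?_
      rw [Finset.sum_comm]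
      refine Finset.sum_congr rfl fun k _ => Finset.sum_congr rfl fun n _ => ?_
      congr 1
      ring
    rw [Complex.ofReal_sub, h3]
    have h4 : ∀ j ∈ range H, ∑ k ∈ range H, ∑ n ∈ Icc 1 M, ec ((n : ℝ) * (((j : ℝ) - k) * θ)) =
        ∑ k ∈ (range H).erase j, ∑ n ∈ Icc 1 M, ec ((n : ℝ) * (((j : ℝ) - k) * θ)) + M := by
      intro j hj
      rw [← Finset.sum_erase_add _ _ hj]
      congr 1
      simp [ec_zero]
    rw [Finset.sum_congr rfl h4, Finset.sum_add_distrib]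
    simp
  rw [← Real.norm_eq_abs, ← Complex.norm_real, h2]
  refine (norm_sum_le _ _).trans ?_
  have h5 : ∀ j ∈ range H, ‖∑ k ∈ (range H).erase j, ∑ n ∈ Icc 1 M,
      ec ((n : ℝ) * (((j : ℝ) - k) * θ))‖ ≤ T := by
    intro j hj
    rw [mem_range] at hj
    refine (norm_sum_le _ _).trans ?_
    have hsplit : (range H).erase j = Finset.range j ∪ Ico (j + 1) H := by
      ext k; simp; omega
    have hdisj : Disjoint (Finset.range j) (Ico (j + 1) H) := by
      rw [Finset.disjoint_left]; intro k hk hk'; simp at hk hk'; omega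
    rw [hsplit, Finset.sum_union hdisj]
    have hA : ∑ k ∈ range j, ‖∑ n ∈ Icc 1 M, ec ((n : ℝ) * (((j : ℝ) - k) * θ))‖ ≤ 1 / 2 * T := by
      calc ∑ k ∈ range j, ‖∑ n ∈ Icc 1 M, ec ((n : ℝ) * (((j : ℝ) - k) * θ))‖
          ≤ ∑ k ∈ range j, 1 / 2 * (1 / nd (((j - k : ℕ) : ℝ) * θ)) := by
            refine Finset.sum_le_sum fun k hk => ?_
            rw [mem_range] at hk
            have : ((j : ℝ) - k) = ((j - k : ℕ) : ℝ) := by rw [Nat.cast_sub hk.le]
            rw [this]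
            exact geom_bound M _ (hh (j - k) (by omega) (by omega))
        _ = 1 / 2 * ∑ h ∈ (range j).image (fun k => j - k), 1 / nd ((h : ℝ) * θ) := by
            rw [Finset.sum_image, Finset.mul_sum]
            intro a ha b hb hab
            simp only [coe_range, Set.mem_Iio] at ha hb
            simp only at hab
            omega
        _ ≤ 1 / 2 * ∑ h ∈ Ico 1 H, 1 / nd ((h : ℝ) * θ) := by
            have hs : (range j).image (fun k => j - k) ⊆ Ico 1 H := by
              intro x hx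
              simp only [mem_image, mem_range, mem_Ico] at hx ⊢
              omega
            have := Finset.sum_le_sum_of_subset_of_nonneg (f := fun h : ℕ => 1 / nd ((h : ℝ) * θ))
              hs (fun h _ _ => by have := nd_nonneg ((h : ℝ) * θ); positivity)
            linarith
        _ ≤ 1 / 2 * T := by linarith
    have hB : ∑ k ∈ Ico (j + 1) H, ‖∑ n ∈ Icc 1 M, ec ((n : ℝ) * (((j : ℝ) - k) * θ))‖
        ≤ 1 / 2 * T := by
      calc ∑ k ∈ Ico (j + 1) H, ‖∑ n ∈ Icc 1 M, ec ((n : ℝ) * (((j : ℝ) - k) * θ))‖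
          ≤ ∑ k ∈ Ico (j + 1) H, 1 / 2 * (1 / nd (((k - j : ℕ) : ℝ) * θ)) := by
            refine Finset.sum_le_sum fun k hk => ?_
            rw [mem_Ico] at hk
            have h6 : (((j : ℝ) - k) * θ) = -(((k - j : ℕ) : ℝ) * θ) := by
              rw [Nat.cast_sub (by omega)]; ring
            rw [h6, ← nd_neg (((k - j : ℕ) : ℝ) * θ)]
            refine geom_bound M _ ?_
            rw [nd_neg]
            exact hh (k - j) (by omega) (by omega)
        _ = 1 / 2 * ∑ h ∈ (Ico (j + 1) H).image (fun k => k - j), 1 / nd ((h : ℝ) * θ) := by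
            rw [Finset.sum_image, Finset.mul_sum]
            intro a ha b hb hab
            simp only [coe_Ico, Set.mem_Ico] at ha hb
            simp only at hab
            omega
        _ ≤ 1 / 2 * ∑ h ∈ Ico 1 H, 1 / nd ((h : ℝ) * θ) := by
            have hs : (Ico (j + 1) H).image (fun k => k - j) ⊆ Ico 1 H := by
              intro x hx
              simp only [mem_image, mem_Ico] at hx ⊢
              omega
            have := Finset.sum_le_sum_of_subset_of_nonneg (f := fun h : ℕ => 1 / nd ((h : ℝ) * θ))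
              hs (fun h _ _ => by have := nd_nonneg ((h : ℝ) * θ); positivity)
            linarith
        _ ≤ 1 / 2 * T := by linarith
    linarith
  calc ∑ j ∈ range H, ‖∑ k ∈ (range H).erase j, ∑ n ∈ Icc 1 M,
      ec ((n : ℝ) * (((j : ℝ) - k) * θ))‖ ≤ ∑ j ∈ range H, T := Finset.sum_le_sum h5
    _ = H * T := by simp

/-- P2 FEJ. -/
theorem fej : GFej := by
  intro ξ hξ δ hδ
  obtain ⟨c₁, hc₁, hR⟩ := hξ (δ / 2) (by positivity)
  set c : ℝ := min c₁ (1 / 2) with hc
  have hc0 : 0 < c := by positivity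
  have hc2 : c ≤ 1 / 2 := min_le_right _ _
  have hcc : c ≤ c₁ := min_le_left _ _
  have hpi := Real.pi_pos
  have hpi3 : 3 < Real.pi := Real.pi_gt_three
  have hpi4 : Real.pi < 3.15 := Real.pi_lt_d2
  have hpisq : Real.pi ^ 2 / 4 ≤ 3 := by nlinarith
  have hpisq' : 1 ≤ Real.pi ^ 2 / 4 := by nlinarith
  -- the constant
  set C1 : ℝ := 1 + Real.log (1 / c) + (1 + δ / 2) / (δ / 2) with hC1
  have hlogc : 0 ≤ Real.log (1 / c) := Real.log_nonneg (by
    rw [le_div_iff₀ hc0]; linarith)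
  have hC1pos : 0 < C1 := by positivity
  refine ⟨3 * (2 / c * C1), by positivity, fun H hH => ?_⟩
  have hH0 : (0 : ℝ) < H := by exact_mod_cast hH
  have hH1 : (1 : ℝ) ≤ H := by exact_mod_cast hH
  refine ⟨fun t => Real.pi ^ 2 / (4 * H ^ 2) * ‖DS H t‖ ^ 2, Real.pi ^ 2 / (4 * H),
    fun t => by positivity, ?_, ?_, ?_, ?_, ?_⟩
  · intro t
    have h1 := DS_le H t
    calc Real.pi ^ 2 / (4 * H ^ 2) * ‖DS H t‖ ^ 2 ≤ Real.pi ^ 2 / (4 * H ^ 2) * (H : ℝ) ^ 2 := by
          gcongr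
      _ = Real.pi ^ 2 / 4 := by field_simp
      _ ≤ 3 := hpisq
  · intro t ht
    have h1 := DS_ge H hH t ht
    calc (1 : ℝ) = Real.pi ^ 2 / (4 * H ^ 2) * (2 * H / Real.pi) ^ 2 := by
          field_simp; norm_num
      _ ≤ Real.pi ^ 2 / (4 * H ^ 2) * ‖DS H t‖ ^ 2 := by gcongr
  · rw [div_le_div_iff₀ hH0 (by positivity)]
    nlinarith
  · rw [div_le_div_iff₀ (by positivity) hH0]
    nlinarith
  · intro d M hd
    have hd1 : (1 : ℝ) ≤ d := by exact_mod_cast hd
    have hd0 : (0 : ℝ) < d := by linarith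
    have hHd : (1 : ℝ) ≤ H * d := by nlinarith
    have hHd0 : (0 : ℝ) < H * d := by linarith
    set s : ℝ := c * ((H : ℝ) * d) ^ (-(1 + δ / 2)) with hs
    have hs0 : 0 < s := by positivity
    have hs2 : s ≤ 1 / 2 := by
      have : ((H : ℝ) * d) ^ (-(1 + δ / 2)) ≤ 1 :=
        Real.rpow_le_one_of_one_le_of_nonpos hHd (by linarith)
      calc s ≤ c * 1 := by rw [hs]; gcongr
        _ ≤ 1 / 2 := by linarith
    have hsn : ∀ h : ℕ, 1 ≤ h → h < H → s ≤ nd (h * (d * ξ)) := by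
      intro h h1 h2
      have h3 := hR (h * d) (Nat.mul_pos h1 hd)
      have h4 : (((h * d : ℕ) : ℝ) * ξ) = h * (d * ξ) := by push_cast; ring
      rw [h4] at h3
      refine le_trans ?_ h3
      have hh0 : (0 : ℝ) < h := by exact_mod_cast h1
      have h5 : ((H : ℝ) * d) ^ (-(1 + δ / 2)) ≤ (((h * d : ℕ) : ℝ)) ^ (-(1 + δ / 2)) := by
        apply Real.rpow_le_rpow_of_nonpos
        · push_cast; positivity
        · push_cast
          have : (h : ℝ) ≤ H := by exact_mod_cast h2.le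
          gcongr
        · linarith
      rw [hs]
      gcongr
    have hT := sum_inv_nd (d * ξ) s H hs0 hsn hs2
    have hM := mean_DS H (d * ξ) _ M (fun h h1 h2 => hs0.trans_le (hsn h h1 h2)) hT
    have e1 : ∑ n ∈ Icc 1 M, Real.pi ^ 2 / (4 * (H : ℝ) ^ 2) * ‖DS H ((n : ℝ) * (d * ξ))‖ ^ 2
        - Real.pi ^ 2 / (4 * H) * M = Real.pi ^ 2 / (4 * (H : ℝ) ^ 2) *
          (∑ n ∈ Icc 1 M, ‖DS H ((n : ℝ) * (d * ξ))‖ ^ 2 - H * M) := by
      rw [mul_sub, Finset.mul_sum]
      congr 1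
      field_simp
    rw [e1, abs_mul, abs_of_pos (by positivity : 0 < Real.pi ^ 2 / (4 * (H : ℝ) ^ 2))]
    -- the logarithm
    have hlog : 1 + Real.log (1 / s) ≤ C1 * ((H : ℝ) * d) ^ (δ / 2) := by
      have h1 : Real.log (1 / s) = Real.log (1 / c) + (1 + δ / 2) * Real.log ((H : ℝ) * d) := by
        rw [hs, one_div, Real.log_inv, Real.log_mul hc0.ne' (by positivity),
          Real.log_rpow hHd0, one_div, Real.log_inv]
        ring
      have h2 := Real.log_le_rpow_div hHd0.le (show 0 < δ / 2 by positivity)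
      have h3 : 1 ≤ ((H : ℝ) * d) ^ (δ / 2) := Real.one_le_rpow hHd (by positivity)
      rw [h1, hC1]
      have h4 : (1 + δ / 2) * Real.log ((H : ℝ) * d) ≤
          (1 + δ / 2) / (δ / 2) * ((H : ℝ) * d) ^ (δ / 2) := by
        calc (1 + δ / 2) * Real.log ((H : ℝ) * d)
            ≤ (1 + δ / 2) * (((H : ℝ) * d) ^ (δ / 2) / (δ / 2)) := by gcongr
          _ = _ := by ring
      have h5 : (1 + Real.log (1 / c)) * 1 ≤ (1 + Real.log (1 / c)) * ((H : ℝ) * d) ^ (δ / 2) := by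
        gcongr
      nlinarith
    have hinv : 2 / s = 2 / c * ((H : ℝ) * d) ^ (1 + δ / 2) := by
      rw [hs, Real.rpow_neg hHd0.le]
      field_simp
    have hpow : ((H : ℝ) * d) ^ (1 + δ / 2) * ((H : ℝ) * d) ^ (δ / 2) =
        H * ((H : ℝ) ^ δ * (d : ℝ) ^ (1 + δ)) := by
      rw [← Real.rpow_add hHd0, show 1 + δ / 2 + δ / 2 = 1 + δ by ring,
        Real.mul_rpow hH0.le hd0.le, Real.rpow_add hH0, Real.rpow_one]
      ring
    calc Real.pi ^ 2 / (4 * (H : ℝ) ^ 2) *
          |∑ n ∈ Icc 1 M, ‖DS H ((n : ℝ) * (d * ξ))‖ ^ 2 - H * M|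
        ≤ 3 / (H : ℝ) ^ 2 * (H * (2 / s * (1 + Real.log (1 / s)))) := by
          apply mul_le_mul _ hM (abs_nonneg _) (by positivity)
          rw [div_le_div_iff₀ (by positivity) (by positivity)]
          nlinarith [sq_nonneg (H : ℝ)]
      _ ≤ 3 / (H : ℝ) ^ 2 * (H * (2 / c * ((H : ℝ) * d) ^ (1 + δ / 2) *
            (C1 * ((H : ℝ) * d) ^ (δ / 2)))) := by
          rw [hinv]; gcongr
      _ = 3 / (H : ℝ) ^ 2 * (H * (2 / c * C1 *
            (((H : ℝ) * d) ^ (1 + δ / 2) * ((H : ℝ) * d) ^ (δ / 2)))) := by ring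
      _ = 3 * (2 / c * C1) * (H : ℝ) ^ δ * (d : ℝ) ^ (1 + δ) := by
          rw [hpow]; field_simp

end Pool.Agent.Helper8.Lang
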